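import Pool.Agent.Y579.HM.Final
import Pool.Agent.Y579.HM.Lower

/-!
# Hindman's theorem for definable colourings

Let `b ≥ 2` be a base and let `R₁, …, R_s` be relations of arity `r` on the natural numbers. A
number `n` is regarded as a finite structure: its elements are the positions of the nonzero digits
of `n` in base `b`, ordered as usual, with the relations `R₁, …, R_s` and with the values of the
digits. A colouring is definable if the colour of `n` is determined by the truth values of
finitely many sentences of monadic second-order logic in this structure. Examples are the number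
modulo `2` of the very short gaps (Blass, Hirst, Simpson; `r = 3`), and the colourings with `8`
colours of this repository for sums of at most three elements (`r = 4`).

1. If the relations are computable, there is an arithmetical infinite set `X`, the number of
quantifiers being bounded in terms of `r` only (`6 r + 2`), such that every definable property is
constant on all the sums of elements of `X` that are large enough. In particular every definable
colouring has an arithmetical solution.

2. The same for arbitrary relations, relative to the relations.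

3. There is a computable definable colouring (`b = 3`, `r = 4`) all of whose solutions, already
for sums of at most three elements, compute `0''` and are not `Σ⁰₃`.

Proof of 1 and 2. Ramsey's theorem gives an infinite set `H` on which the relations depend only on
the order type of their arguments (by iterated end-homogeneous sets, with a count of
quantifiers). The structure of a sum of distinct powers `b ^ q`, `q ∈ H`, is then
determined by the number of summands, and the truth value of a sentence is an ultimately periodic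
function of this number (a language that is definable in monadic second-order logic has finitely
many left quotients). So the sums over consecutive blocks of `H` of lengths `1!, 2!, 3!, …` are as
required.
-/

set_option autoImplicit false

open Encodable Pool.Agent.Y579.HM Pool.Agent.H645R2.HT

namespace Pool.Agent.Results.MP_69fea5_lc.DefinableColourings

/-- The characteristic function of a set of natural numbers, as a (total) partial function. -/
noncomputable def char (B : Set ℕ) : ℕ →. ℕ := by
  classical exact fun n => Part.some (if n ∈ B then 1 else 0)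

/-- `X` is an infinite set of positive integers such that every property `φ` which is definable in
monadic second-order logic from the positions of the nonzero digits in base `b` and the relations
`R` has the same truth value for all sums of finitely many distinct elements of `X` that are at
least `m`, for some `m` which may depend on `φ`. -/
def Homogeneous {s r : ℕ} (R : Fin s → (Fin r → ℕ) → Prop) (b : ℕ) (X : Set ℕ) : Prop :=
  X.Infinite ∧ 0 ∉ X ∧ ∀ φ : Form s r, ∃ m, ∀ F F' : Finset ℕ, (F : Set ℕ) ⊆ X →
    (F' : Set ℕ) ⊆ X → F.Nonempty → F'.Nonempty → (∀ x ∈ F, m ≤ x) → (∀ x ∈ F', m ≤ x) →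
    (Sat R b (∑ x ∈ F, x) φ (fun _ => ∅) ↔ Sat R b (∑ x ∈ F', x) φ fun _ => ∅)

theorem computable_lev {s r : ℕ} {R : Fin s → (Fin r → ℕ) → Bool}
    (hR : ∀ a, Computable (R a)) :
    Lev ∅ 0 fun x : Fin s × (Fin r → ℕ) => R x.1 x.2 = true := by
  have key : ∀ l : List (Fin s), Lev ∅ 0 fun x : Fin s × (Fin r → ℕ) =>
      ∃ i ∈ l, x.1 = i ∧ R i x.2 = true := by
    intro l
    induction l with
    | nil =>
      refine (Lev.of_comp (p := fun _ : Fin s × (Fin r → ℕ) => false)
        (Computable.const false)).congr fun x => ?_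
      simp
    | cons i l ih =>
      have h1 : Lev ∅ 0 fun x : Fin s × (Fin r → ℕ) => x.1 = i :=
        Lev.of_primrec (Primrec.eq.comp Primrec.fst (Primrec.const i))
      have h2 : Lev ∅ 0 fun x : Fin s × (Fin r → ℕ) => R i x.2 = true :=
        Lev.of_comp ((hR i).comp Computable.snd)
      refine ((h1.and h2).or ih).congr fun x => ?_
      constructor
      · rintro (h | ⟨j, hj, h⟩)
        · exact ⟨i, List.mem_cons_self, h⟩
        · exact ⟨j, List.mem_cons_of_mem _ hj, h⟩
      · rintro ⟨j, hj, h⟩
        rcases List.mem_cons.1 hj with rfl | hj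
        · exact Or.inl h
        · exact Or.inr ⟨j, hj, h⟩
  refine (key (List.finRange s)).congr fun x => ?_
  constructor
  · rintro ⟨i, _, rfl, h⟩
    exact h
  · intro h
    exact ⟨x.1, List.mem_finRange _, rfl, h⟩

/-- The set of the codes of the pairs `(a, x)` such that `R a x`. -/
def codes {s r : ℕ} (R : Fin s → (Fin r → ℕ) → Prop) : Set ℕ :=
  {z | ∃ x : Fin s × (Fin r → ℕ), R x.1 x.2 ∧ z = @encode _ Primcodable.toEncodable x}

theorem code_lev {s r : ℕ} (R : Fin s → (Fin r → ℕ) → Prop) :
    Lev (codes R) 0 fun x : Fin s × (Fin r → ℕ) => R x.1 x.2 := by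
  refine ⟨_, LevN.orc (g := fun x => x) Computable.id, fun x => ?_⟩
  constructor
  · intro h
    exact ⟨x, h, rfl⟩
  · rintro ⟨y, h, he⟩
    have e : x = y := @encode_injective _ Primcodable.toEncodable _ _ he
    rw [e]
    exact h

theorem c_app (i : Fin 4) : Computable fun x : Fin 4 → ℕ => x i :=
  (Primrec.fin_app.comp Primrec.id (Primrec.const i)).to_comp

theorem Rel4_zero : Rel4 0 = fun x => g1 W0 (x 0) (x 1) (x 2) (x 3) := rfl

theorem Rel4_one : Rel4 1 = fun x => g2 W0 p0 (x 0) (x 1) (x 2) (x 3) := rfl

theorem Rel4_two : Rel4 2 = fun x => g3 W0 (x 0) (x 1) (x 2) (x 3) := rfl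

theorem c_quad : Computable fun x : Fin 4 → ℕ => ((x 0, x 1), (x 2, x 3)) :=
  ((c_app 0).pair (c_app 1)).pair ((c_app 2).pair (c_app 3))

theorem c_Rel4_0 : Computable (Rel4 0) := by
  have h : Computable fun p : (ℕ × ℕ) × ℕ × ℕ => g1 W0 p.1.1 p.1.2 p.2.1 p.2.2 := c_g1 c_W0
  have h' := h.comp c_quad
  exact h'.of_eq fun x => rfl

theorem c_Rel4_1 : Computable (Rel4 1) := by
  rw [Rel4_one]
  exact c_g2 c_W0 c_p0 (c_app 0) (c_app 1) (c_app 2) (c_app 3)

theorem c_Rel4_2 : Computable (Rel4 2) := by
  have h : Computable fun p : (ℕ × ℕ) × ℕ × ℕ => g3 W0 p.1.1 p.1.2 p.2.1 p.2.2 := c_g3 c_W0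
  have h' := h.comp c_quad
  exact h'.of_eq fun x => rfl

theorem c_Rel4 (a : Fin 3) : Computable (Rel4 a) := by
  have h : a = 0 ∨ a = 1 ∨ a = 2 := by omega
  rcases h with h | h | h
  · rw [h]
    exact c_Rel4_0
  · rw [h]
    exact c_Rel4_1
  · rw [h]
    exact c_Rel4_2

/-- the sentences -/
def sent : Fin 4 → Form 3 4 := ![fOne, fPar 0, fPar 1, fPar 2]

/-- the colouring -/
def col4 (n : ℕ) : Fin 4 → Bool := ![b0 n, C (g1 W0) n, C (g2 W0 p0) n, C (g3 W0) n]

theorem col4_iff (n : ℕ) (j : Fin 4) :
    col4 n j = true ↔ Sat (fun a x => Rel4 a x = true) 3 n (sent j) fun _ => ∅ := by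
  fin_cases j
  · exact (sat_one_b0 n).symm
  · exact (sat_par_C 0 n).symm
  · exact (sat_par_C 1 n).symm
  · exact (sat_par_C 2 n).symm

theorem c_col4 : Computable col4 := by
  have h1 : Computable fun n => C (g1 W0) n := c_C (c_g1 c_W0)
  have h2 : Computable fun n => C (g2 W0 p0) n :=
    c_C (γ := g2 W0 p0) (c_g2 c_W0 c_p0 (by fun_prop) (by fun_prop) (by fun_prop) (by fun_prop))
  have h3 : Computable fun n => C (g3 W0) n := c_C (c_g3 c_W0)
  have h4 : Computable fun n => (b0 n, C (g1 W0) n, C (g2 W0 p0) n, C (g3 W0) n) :=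
    c_b0.pair (h1.pair (h2.pair h3))
  have h5 : Computable fun p : Bool × Bool × Bool × Bool =>
      (![p.1, p.2.1, p.2.2.1, p.2.2.2] : Fin 4 → Bool) := (Primrec.dom_finite _).to_comp
  exact h5.comp h4

/-- Main theorem. -/
theorem result :
    (∀ (s r : ℕ) (R : Fin s → (Fin r → ℕ) → Bool), (∀ a, Computable (R a)) → ∀ b : ℕ, 2 ≤ b →
      ∃ X : Set ℕ, LevN ∅ (6 * r + 2) (· ∈ X) ∧ Homogeneous (fun a x => R a x = true) b X) ∧
    (∀ (s r : ℕ) (R : Fin s → (Fin r → ℕ) → Prop), ∀ b : ℕ, 2 ≤ b →
      ∃ X : Set ℕ, LevN (codes R) (6 * r + 2) (· ∈ X) ∧ Homogeneous R b X) ∧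
    ∃ R : Fin 3 → (Fin 4 → ℕ) → Bool, (∀ a, Computable (R a)) ∧ ∃ φ : Fin 4 → Form 3 4,
      ∃ c : ℕ → Fin 4 → Bool, Computable c ∧
        (∀ n j, c n j = true ↔ Sat (fun a x => R a x = true) 3 n (φ j) fun _ => ∅) ∧
        ∀ X : Set ℕ, X.Infinite → 0 ∉ X →
          (∃ i, ∀ F : Finset ℕ, (F : Set ℕ) ⊆ X → F.Nonempty → F.card ≤ 3 →
            c (∑ n ∈ F, n) = i) →
          (∀ S : ℕ → ℕ → ℕ → Bool, Computable (fun q : ℕ × ℕ × ℕ => S q.1 q.2.1 q.2.2) →
            TuringReducible (char {n | ∃ a, ∀ b, S n a b = true}) (char X)) ∧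
          ∀ S : ℕ → ℕ → ℕ → ℕ → Bool,
            Computable (fun q : ℕ × ℕ × ℕ × ℕ => S q.1 q.2.1 q.2.2.1 q.2.2.2) →
            X ≠ {n | ∃ a, ∀ b, ∃ t, S n a b t = true} := by
  classical
  refine ⟨?_, ?_, Rel4, c_Rel4, sent, col4, c_col4, col4_iff, ?_⟩
  · intro s r R hR b hb
    obtain ⟨X, h1, h2, h3, h4⟩ := main (R := fun a x => R a x = true) (computable_lev hR) hb
    rw [Nat.zero_add] at h1
    exact ⟨X, h1, h2, h3, h4⟩
  · intro s r R b hb
    obtain ⟨X, h1, h2, h3, h4⟩ := main (R := R) (code_lev R) hb
    rw [Nat.zero_add] at h1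
    exact ⟨X, h1, h2, h3, h4⟩
  · intro X hinf h0 hc
    have hp := ps_of h0
    have hc' : Const3 col4 X := hc
    have hb0 : Const3 b0 X := hc'.map fun q => q 0
    have hb1 : Const3 (C (g1 W0)) X := hc'.map fun q => q 1
    have hb2 : Const3 (C (g2 W0 p0)) X := hc'.map fun q => q 2
    have hb3 : Const3 (C (g3 W0)) X := hc'.map fun q => q 3
    have hf := hb0.far hinf hp
    have hM := modOK mon_W0 hp hf (hb1.eq2 hp)
    refine ⟨fun S hS => ?_, fun S hS hX => ?_⟩
    · obtain ⟨k1, k2⟩ := computes c_W0 c_p0 hp hf hM (hb2.eq3 hp)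
      obtain ⟨e, he⟩ := sigma2_univ hS
      have h1 : Pool.Agent.Helper446.Oracle.REIn X
          (fun n => n ∈ {n | ∃ a, ∀ b, S n a b = true}) :=
        (k1.comp (f := fun n : ℕ => Nat.pair e n) (by fun_prop)).of_eq fun n => (he n).symm
      have h2 : Pool.Agent.Helper446.Oracle.REIn X
          (fun n => n ∉ {n | ∃ a, ∀ b, S n a b = true}) :=
        (k2.comp (f := fun n : ℕ => Nat.pair e n) (by fun_prop)).of_eq fun n =>
          not_congr (he n).symm
      exact Pool.Agent.Helper446.Oracle.turingReducible_iff.2 ⟨h1, h2⟩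
    · have h1 : REPred fun w : ℕ => ∃ t,
          S w.unpair.1 w.unpair.2.unpair.1 w.unpair.2.unpair.2 t = true := by
        refine Pool.Agent.Helper446.RE.exN (p := fun (w : ℕ) t =>
          S w.unpair.1 w.unpair.2.unpair.1 w.unpair.2.unpair.2 t = true) ?_
        refine Pool.Agent.Helper446.RE.eq ?_ (by fun_prop)
        exact hS.comp (g := fun x : ℕ × ℕ => (x.1.unpair.1, x.1.unpair.2.unpair.1,
          x.1.unpair.2.unpair.2, x.2)) (by fun_prop)
      obtain ⟨e, he⟩ := univ_W0 h1
      refine no_sigma3 hp hf hM (hb3.eq3 hp) e fun n => ?_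
      rw [hX]
      show (∃ a, ∀ b, ∃ t, S n a b t = true) ↔ ∃ a, Tr W0 e n a
      refine exists_congr fun a => ?_
      unfold Tr
      refine forall_congr' fun b => ?_
      rw [← he (Nat.pair n (Nat.pair a b))]
      simp only [Nat.unpair_pair]

end Pool.Agent.Results.MP_69fea5_lc.DefinableColourings
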