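import Pool.Agent.Y545.HM.St

/-!
Hindman's theorem for colourings with finitely many eventual classes has exactly the strength of
one jump.
-/

namespace Pool.Agent.Results.MP_69fea5_lc.EventualClasses

open Pool.Agent.Y545.HM Pool.Agent.Y545.HM.St

/-- **Colourings with finitely many eventual classes: exactly one jump.** -/
theorem result :
    -- finitely many eventual classes: one jump is enough
    (∀ (A : Set ℕ) (k : ℕ) (c : ℕ → Fin k), Computes A (fun n => Part.some (c n).val) →
      (∃ W, ∀ m, Eventual c m W) →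
        ∃ S, Enum A S ∧ ∃ X, Solution c X ∧ Computes (Join A S) (char X)) ∧
    -- two states at infinitely many cuts and slowly growing memory code the jump
    (∀ (A S : Set ℕ) (w : ℕ → ℕ), Enum A S → Monotone w → 2 ≤ w 0 → Dominates A w →
      ∃ c : ℕ → Fin 2, Computes A (fun n => Part.some (c n).val) ∧ (∀ m, Memory c m (w m)) ∧
        {m | Memory c m 2}.Infinite ∧ (∀ m, Eventual c m 2) ∧
        ∀ Y, Solution c Y → Computes (Join A Y) (char S)) ∧
    -- bounded memory at the cuts in an enumerable set, or one state at infinitely many cuts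
    (∀ (A : Set ℕ) (k : ℕ) (c : ℕ → Fin k), Computes A (fun n => Part.some (c n).val) →
      ((∃ C W, Enum A C ∧ C.Infinite ∧ ∀ m ∈ C, Memory c m W) ∨
        {m | Memory c m 1}.Infinite) → ∃ X, Solution c X ∧ Computes A (char X)) ∧
    -- the strength over `ω`-models
    ∀ I : Set (Set ℕ), Ideal I →
      (HT I (fun _ c => ∃ W, ∀ m, Eventual c m W) ↔ ACA I) ∧
      ∀ w : ℕ → ℕ, Monotone w → 2 ≤ w 0 →
        (HT I (fun _ c => (∀ m, Memory c m (w m)) ∧ {m | Memory c m 2}.Infinite) ↔
          ((∃ A ∈ I, Dominates A w) → ACA I)) ∧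
        (HT I (fun _ c => ∀ m, Eventual c m (w m)) ↔
          ACA I ∧ ((∃ A ∈ I, Dominates A w) → HT I fun _ _ => True)) := by
  refine ⟨?_, ?_, ?_, ?_⟩
  · rintro A k c hc ⟨W, hW⟩
    obtain ⟨S, hS, X, hX, hXd⟩ := upper (computes_col.1 hc) (ix_of_evl hW)
    exact ⟨S, enum_iff.2 hS, X, hX, computes_set.2 hXd⟩
  · intro A S w hS hmono h2 hw
    obtain ⟨c, h1, h3, h4, h5⟩ := lower_slow (enum_iff.1 hS) hmono h2 (dominates_iff.1 hw)
    exact ⟨c, computes_col.2 h1, h3, h4, fun m => evl_of_ix (ix_of_mem h4), fun Y hY =>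
      computes_set.2 (h5 (join A Y) Y dec_left dec_right hY)⟩
  · rintro A k c hc (⟨C, W, hC, hinf, hm⟩ | hinf)
    · obtain ⟨X, hX, hXd⟩ := bounded (computes_col.1 hc) (enum_iff.1 hC) hinf
        fun m hmC => not_sp_of_mem (hm m hmC)
      exact ⟨X, hX, computes_set.2 hXd⟩
    · obtain ⟨X, hX, hXd⟩ := one_state (computes_col.1 hc) hinf
      exact ⟨X, hX, computes_set.2 hXd⟩
  · intro I hI
    have hI' := ideal_iff.1 hI
    refine ⟨?_, fun w hmono h2 => ⟨?_, ?_⟩⟩
    · rw [ht_iff, aca_iff, ← (class_jump hI').2]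
      constructor
      · exact fun h => h.mono fun k c ⟨W, hW⟩ => ⟨W, fun m => evl_of_ix hW⟩
      · exact fun h => h.mono fun k c ⟨W, hW⟩ => ⟨W, ix_of_evl hW⟩
    · rw [ht_iff, dom_iff, aca_iff]
      exact class_mix hI' hmono h2
    · rw [ht_iff, ht_iff, dom_iff, aca_iff]
      exact class_ev hI' hmono h2

end Pool.Agent.Results.MP_69fea5_lc.EventualClasses
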