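import Pool.Agent.Y579.ST.LIT
import Pool.Agent.Y579.ST.GREEDY
import Pool.Agent.Y548.ST.ORD
import Pool.Agent.Y497.ST.VCX

/-!
# Hindman's theorem for colourings of finite Littlestone dimension

The sums `x + y`, with `y` beyond `x` (a multiple of a power of `3` greater than `x`), are regarded
as a family of functions of `x` with parameter `y`.  If this family has finite Littlestone
dimension, i.e. if for some `d` no tree of depth `d` is shattered (in model theory: the colouring of
the sums is stable; there are no long half-graphs), then every limit
`g x = lim (y → V) c (x + y)` along an ultrafilter `V` of numbers tending to infinity and to `0` in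
the `3`-adic sense is computable from the colouring `c`, by the majority vote of Littlestone's
standard optimal algorithm, and a greedy construction along an idempotent ultrafilter gives a
solution computable from `c`.  In contrast some computable colouring for which the family has
Vapnik-Chervonenkis dimension one has no computable solution.
-/

set_option autoImplicit false

namespace Pool.Agent.Results.MP_69fea5_lc.FiniteLittlestone

open Pool.Agent.Helper446.Defs Pool.Agent.Helper446.Oracle Pool.Agent.Y579.ST

/-- The graph of `c`, as a set of codes of pairs of natural numbers. -/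
def graph {k : ℕ} (c : ℕ → Fin k) : Set ℕ := {n | (c n.unpair.1 : ℕ) = n.unpair.2}

/-- (1) If the sums of the colouring `c` have finite Littlestone dimension, Hindman's theorem for
`c` has a solution that is Turing reducible to `c`.  (2) Some computable two-colouring whose sums
have Vapnik-Chervonenkis dimension at most one has no computable solution. -/
theorem result :
    (∀ (k : ℕ) (c : ℕ → Fin k), (∃ d, ¬ Lit c d fun _ => True) →
      ∃ (i : Fin k) (X : Set ℕ), Sol c i X ∧ TuringReducible (chi X) (chi (graph c))) ∧
    ∃ c : ℕ → Fin 2, Computable c ∧ VCOne c ∧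
      ∀ (X : Set ℕ) (i : Fin 2), Sol c i X → ¬ ComputablePred (fun n => n ∈ X) := by
  constructor
  · rintro k c ⟨d, hd⟩
    have hc : REIn (graph c) fun p : ℕ × Fin k => c p.1 = p.2 := by
      have h := REIn.mem (A := graph c) (f := fun p : ℕ × Fin k => Nat.pair p.1 (p.2 : ℕ))
        (Computable₂.comp Primrec₂.natPair.to_comp Computable.fst
          (Primrec.fin_val.to_comp.comp Computable.snd))
      refine h.of_eq fun p => ?_
      show (c (Nat.pair p.1 (p.2 : ℕ)).unpair.1 : ℕ) = (Nat.pair p.1 (p.2 : ℕ)).unpair.2 ↔ _
      rw [Nat.unpair_pair]
      exact Fin.ext_iff.symm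
    obtain ⟨i, X, hX, h1, h2⟩ := solution t_GREEDY hc hd
    exact ⟨i, X, hX, turingReducible_iff.2 ⟨h1, h2⟩⟩
  · obtain ⟨c, h1, h2, h3⟩ := Pool.Agent.Y497.ST.t_VCX Pool.Agent.Y548.ST.t_ORD
    exact ⟨c, h1, h2, fun X i hX hcomp => h3 X hcomp i hX⟩

end Pool.Agent.Results.MP_69fea5_lc.FiniteLittlestone
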