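import Pool.Agent.Y545.HM.St

/-!
Hindman's theorem for colourings of small one-way memory: for every bound on the memory, the
restriction of Hindman's theorem to the colourings with this bound is either computably true or
as strong as the full theorem.
-/

namespace Pool.Agent.Results.MP_69fea5_lc.MemoryThreshold

open Pool.Agent.Y545.HM Pool.Agent.Y545.HM.St

/-- **The dichotomy for Hindman's theorem for colourings of small memory.** -/
theorem result :
    -- slowly growing memory: as hard as arbitrary colourings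
    (∀ (A : Set ℕ) (w : ℕ → ℕ), Monotone w → 2 ≤ w 0 → Dominates A w →
      ∃ φ : ℕ → ℕ, Computes A (fun n => Part.some (φ n)) ∧ (∀ n, 0 < n → 0 < φ n) ∧
        ∀ (k : ℕ) (c : ℕ → Fin k), (∀ m, Memory (c ∘ φ) m (w m)) ∧
          (∀ Y, Solution (c ∘ φ) Y → ∃ X, Solution c X ∧ Computes (Join A Y) (char X)) ∧
          ∀ X, Solution c X → ∃ Y, Solution (c ∘ φ) Y ∧ Computes (Join A X) (char Y)) ∧
    -- the same with primitive recursive colourings
    (∀ w : ℕ → ℕ, Monotone w → 2 ≤ w 0 →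
      (∃ w' : ℕ → ℕ, Computable w' ∧ (∀ B, ∃ m, B ≤ w' m) ∧ ∀ m, w' m ≤ w m) →
      ∀ (k : ℕ) (c : ℕ → Fin k), Computable c → ∃ φ : ℕ → ℕ, Primrec φ ∧ Primrec (c ∘ φ) ∧
        (∀ n, 0 < n → 0 < φ n) ∧ (∀ m, Memory (c ∘ φ) m (w m)) ∧
        (∀ Y, Solution (c ∘ φ) Y → ∃ X, Solution c X ∧ Computes Y (char X)) ∧
        ∀ X, Solution c X → ∃ Y, Solution (c ∘ φ) Y ∧ Computes X (char Y)) ∧
    -- smaller memory: solutions computable from the colouring
    (∀ (A : Set ℕ) (w : ℕ → ℕ), Monotone w → ¬ Dominates A w →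
      ∀ (k : ℕ) (c : ℕ → Fin k), Computes A (fun n => Part.some (c n).val) →
        (∀ m, Memory c m (w m)) → ∃ X, Solution c X ∧ Computes A (char X)) ∧
    -- the strength over `ω`-models
    ∀ I : Set (Set ℕ), Ideal I → ∀ w : ℕ → ℕ, Monotone w → 2 ≤ w 0 →
      (HT I (fun _ c => ∀ m, Memory c m (w m)) ↔
        ((∃ A ∈ I, Dominates A w) → HT I fun _ _ => True)) := by
  refine ⟨?_, ?_, ?_, ?_⟩
  · intro A w hmono h2 hw
    obtain ⟨φ, h1, h3, h4⟩ := large hmono h2 (dominates_iff.1 hw)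
    refine ⟨φ, computes_fun.2 h1, h3, fun k c => ⟨(h4 k c).1, fun Y hY => ?_, fun X hX => ?_⟩⟩
    · obtain ⟨X, hX, hXd⟩ := (h4 k c).2.1 (join A Y) Y dec_left dec_right hY
      exact ⟨X, hX, computes_set.2 hXd⟩
    · obtain ⟨Y, hY, hYd⟩ := (h4 k c).2.2 (join A X) X dec_left dec_right hX
      exact ⟨Y, hY, computes_set.2 hYd⟩
  · intro w hmono h2 hw k c hc
    obtain ⟨φ, h1, h3, h4, h5, h6, h7⟩ := prim hc hmono h2 hw
    refine ⟨φ, h1, h3, h4, h5, fun Y hY => ?_, fun X hX => ?_⟩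
    · obtain ⟨X, hX, hXd⟩ := h6 Y hY
      exact ⟨X, hX, computes_set.2 hXd⟩
    · obtain ⟨Y, hY, hYd⟩ := h7 X hX
      exact ⟨Y, hY, computes_set.2 hYd⟩
  · intro A w hmono hw k c hc hm
    obtain ⟨X, hX, hXd⟩ := small hmono (fun h => hw (dominates_iff.2 h)) (computes_col.1 hc) hm
    exact ⟨X, hX, computes_set.2 hXd⟩
  · intro I hI w hmono h2
    rw [ht_iff, ht_iff, dom_iff]
    exact class_mem (ideal_iff.1 hI) hmono h2

end Pool.Agent.Results.MP_69fea5_lc.MemoryThreshold
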